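import Pool.Agent.Lib.MP_de94ef_pr.U.Dev

/-!
The shape bound written with the two dilates of the limit shape; it is equivalent to `boundary`.
-/

open MeasureTheory ProbabilityTheory Filter
open scoped Pointwise

namespace Pool.Agent.Lib.MP_de94ef_pr.SW

open Pool.Agent.Lib.MP_de94ef_pr.U

theorem sandwich : ∃ θ c C : ℝ, 1 < θ ∧ θ < 2 ∧ 0 < c ∧
    ∀ (Ω : Type) [MeasureSpace Ω] [IsProbabilityMeasure (volume : Measure Ω)]
    (X : Sym2 (ℤ × ℤ) → Ω → ℝ) (T : Ω → ℤ × ℤ → ℝ) (μ : ℝ × ℝ → ℝ),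
    (∀ e, Measurable (X e)) →
    iIndepFun X (volume : Measure Ω) →
    (∀ e, Measure.map (X e) (volume : Measure Ω) = expMeasure 1) →
    (∀ ω v, T ω v = sInf {s : ℝ | ∃ n : ℕ, ∃ p : ℕ → ℤ × ℤ, p 0 = 0 ∧ p n = v ∧
        (∀ i < n, |(p (i + 1)).1 - (p i).1| + |(p (i + 1)).2 - (p i).2| = 1) ∧
        s = ∑ i ∈ Finset.range n, X s(p i, p (i + 1)) ω}) →
    (∀ (x : ℝ × ℝ) (c : ℝ), 0 ≤ c → μ (c • x) = c * μ x) →
    Continuous μ →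
    (∀ z : ℤ × ℤ, ∀ᵐ ω ∂(volume : Measure Ω),
        Tendsto (fun n : ℕ => T ω ((n : ℤ) • z) / (n : ℝ)) atTop
          (nhds (μ ((z.1 : ℝ), (z.2 : ℝ))))) →
    ∀ t δ : ℝ, 0 < t → 0 < δ → δ < 1 →
      ((volume : Measure Ω) {ω | ¬ (
            ((1 - δ) * t) • {x : ℝ × ℝ | μ x ≤ 1} ⊆
              {x : ℝ × ℝ | ∃ v : ℤ × ℤ, T ω v ≤ t ∧
                |x.1 - (v.1 : ℝ)| ≤ 1 / 2 ∧ |x.2 - (v.2 : ℝ)| ≤ 1 / 2} ∧
            {x : ℝ × ℝ | ∃ v : ℤ × ℤ, T ω v ≤ t ∧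
                |x.1 - (v.1 : ℝ)| ≤ 1 / 2 ∧ |x.2 - (v.2 : ℝ)| ≤ 1 / 2} ⊆
              ((1 + δ) * t) • {x : ℝ × ℝ | μ x ≤ 1})}).toReal ≤
        C * Real.exp (-(c * (t * δ ^ θ))) := by
  obtain ⟨θ, c, C, θ1, θ2, hc, h⟩ := boundary
  refine ⟨θ, c, C, θ1, θ2, hc, fun Ω _ _ X T μ h1 h2 h3 h4 h5 h6 h7 t δ t0 d0 d1 => ?_⟩
  have d2 := mul_pos d0 t0
  have k := h Ω X T μ h1 h2 h3 h4 h5 h6 h7 t _ d2 (by nlinarith)
  rw [mul_div_cancel_right₀ _ t0.ne'] at k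
  refine le_trans (ENNReal.toReal_mono (measure_ne_top _ _) (measure_mono fun ω hω => ?_)) k
  rcases not_and_or.1 hω with hω | hω
  · obtain ⟨x, a1, a2⟩ := Set.not_subset.1 hω
    rw [ball_iff h5 (mul_pos (by linarith) t0)] at a1
    refine ⟨x, Set.mem_symmDiff.2 (Or.inr ⟨?_, a2⟩), le_trans (by linarith) (neg_le_abs _)⟩
    rw [ball_iff h5 t0]
    linarith
  · obtain ⟨x, a1, a2⟩ := Set.not_subset.1 hω
    rw [ball_iff h5 (by positivity), not_le] at a2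
    refine ⟨x, Set.mem_symmDiff.2 (Or.inl ⟨a1, ?_⟩), le_trans (by linarith) (le_abs_self _)⟩
    rw [ball_iff h5 t0, not_le]
    linarith

theorem boundary_of_sandwich : ∃ θ c C : ℝ, 1 < θ ∧ θ < 2 ∧ 0 < c ∧
    ∀ (Ω : Type) [MeasureSpace Ω] [IsProbabilityMeasure (volume : Measure Ω)]
    (X : Sym2 (ℤ × ℤ) → Ω → ℝ) (T : Ω → ℤ × ℤ → ℝ) (μ : ℝ × ℝ → ℝ),
    (∀ e, Measurable (X e)) →
    iIndepFun X (volume : Measure Ω) →
    (∀ e, Measure.map (X e) (volume : Measure Ω) = expMeasure 1) →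
    (∀ ω v, T ω v = sInf {s : ℝ | ∃ n : ℕ, ∃ p : ℕ → ℤ × ℤ, p 0 = 0 ∧ p n = v ∧
        (∀ i < n, |(p (i + 1)).1 - (p i).1| + |(p (i + 1)).2 - (p i).2| = 1) ∧
        s = ∑ i ∈ Finset.range n, X s(p i, p (i + 1)) ω}) →
    (∀ (x : ℝ × ℝ) (c : ℝ), 0 ≤ c → μ (c • x) = c * μ x) →
    Continuous μ →
    (∀ z : ℤ × ℤ, ∀ᵐ ω ∂(volume : Measure Ω),
        Tendsto (fun n : ℕ => T ω ((n : ℤ) • z) / (n : ℝ)) atTop
          (nhds (μ ((z.1 : ℝ), (z.2 : ℝ))))) →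
    ∀ t s : ℝ, 0 < s → s ≤ t →
      ((volume : Measure Ω) {ω | ∃ x ∈ symmDiff {x : ℝ × ℝ | ∃ v : ℤ × ℤ, T ω v ≤ t ∧
          |x.1 - (v.1 : ℝ)| ≤ 1 / 2 ∧ |x.2 - (v.2 : ℝ)| ≤ 1 / 2} (t • {x : ℝ × ℝ | μ x ≤ 1}),
          s ≤ |μ x - t|}).toReal ≤ C * Real.exp (-(c * (t * (s / t) ^ θ))) := by
  obtain ⟨θ, c, C, θ1, θ2, hc, h⟩ := sandwich
  refine ⟨θ, c / 4, |C|, θ1, θ2, by positivity,
    fun Ω _ _ X T μ h1 h2 h3 h4 h5 h6 h7 t s s0 st => ?_⟩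
  have t0 : 0 < t := by linarith
  have x0 : 0 < s / t := by positivity
  have x1 : s / t ≤ 1 := (div_le_one t0).2 st
  have e1 : s / t / 2 * t = s / 2 := by field_simp
  have k := h Ω X T μ h1 h2 h3 h4 h5 h6 h7 t (s / t / 2) t0 (by positivity) (by linarith)
  refine le_trans (le_trans (ENNReal.toReal_mono (measure_ne_top _ _)
    (measure_mono fun ω hω => ?_)) k) (mul_le_mul (le_abs_self C)
      (Real.exp_le_exp.2 (neg_le_neg ?_)) (Real.exp_pos _).le (abs_nonneg C))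
  · obtain ⟨x, hx, hs⟩ := hω
    intro hc'
    rcases Set.mem_symmDiff.1 hx with ⟨a1, a2⟩ | ⟨a1, a2⟩
    · have a3 := hc'.2 a1
      rw [ball_iff h5 (by positivity), add_mul, e1] at a3
      rw [ball_iff h5 t0, not_le] at a2
      rw [abs_of_pos (by linarith)] at hs
      linarith
    · refine a2 (hc'.1 ?_)
      rw [ball_iff h5 (mul_pos (by linarith) t0), sub_mul, e1]
      rw [ball_iff h5 t0] at a1
      rw [abs_of_nonpos (by linarith)] at hs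
      linarith
  · have a1 : (2 : ℝ) ^ θ ≤ 4 :=
      (Real.rpow_le_rpow_of_exponent_le (by norm_num) θ2.le).trans (by norm_num)
    have a2 : (s / t) ^ θ / 4 ≤ (s / t / 2) ^ θ := by
      rw [Real.div_rpow x0.le (by norm_num)]
      exact div_le_div_of_nonneg_left (by positivity) (by positivity) a1
    have a3 := mul_le_mul_of_nonneg_left a2 (mul_pos hc t0).le
    linarith

end Pool.Agent.Lib.MP_de94ef_pr.SW
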